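import Pool.Agent.Lib_helper52.A1.Qbd2
import Pool.Agent.Lib_helper59.A1.Stmts

/-!
# A1: the blocks QDI and SYB, verbatim
-/

open scoped BigOperators ComplexOrder Kronecker MatrixOrder Topology
open MeasureTheory Set Matrix Filter

namespace Pool.Agent.A1W

open Pool.Agent.RC Pool.Agent.A1

set_option linter.unusedSectionVars false

theorem qdi_stmt : QDIStmt := by
  intro ι κ _ _ _ _ R₁ D₁ R₂ D₂ h₁ h₂ c hc U x hU' hU hX e he
  have hX' : Uᴴ * Xc R₁ D₁ c * U = Matrix.diagonal (fun i => (x i : ℂ)) := by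
    rw [hX]
    calc Uᴴ * (U * dg x * Uᴴ) * U = (Uᴴ * U) * dg x * (Uᴴ * U) := by noncomm_ring
      _ = dg x := by rw [hU, one_mul, mul_one]
  have hx : ∀ i, 0 < x i := by
    intro i
    have hUu : IsUnit U := IsUnit.of_mul_eq_one _ hU'
    have h3 : (Uᴴ * Xc R₁ D₁ c * U).PosDef :=
      (Xc_posDef h₁ hc).conjTranspose_mul_mul_same (Matrix.mulVec_injective_of_isUnit hUu)
    rw [hX', Matrix.posDef_diagonal_iff] at h3
    have h4 := h3 i
    exact_mod_cast h4
  exact qc_eq h₂.posDef.posSemidef h₂.herm h₁.herm he hU hU' hx hX'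

section

variable {κ : Type} [Fintype κ] [DecidableEq κ]

theorem measurable_sf (R D : Matrix κ κ ℂ) :
    Measurable fun x : (ℝ × ℝ) × ℝ => sf R D x.1.1 x.1.2 x.2 := by
  have hG : Continuous fun x : (ℝ × ℝ) × ℝ =>
      (Zm (1 + (x.1.2 : ℂ) • R) (Wc R D x.1.1) x.2) := by
    unfold Zm Wc
    fun_prop
  have h := measurable_trace_inv (B := fun _ : (ℝ × ℝ) × ℝ => R) continuous_const hG
  unfold sf
  exact ((Complex.measurable_im.comp h).div measurable_snd).neg

theorem stronglyMeasurable_sy (R D : Matrix κ κ ℂ) :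
    StronglyMeasurable fun x : ℝ × ℝ => sy R D x.2 x.1 := by
  simp only [sy_eq_sf]
  refine StronglyMeasurable.const_mul ?_ _
  have h := (measurable_sf R D).stronglyMeasurable
  exact StronglyMeasurable.integral_prod_right
    (f := fun (x : ℝ × ℝ) w => sf R D x.1 x.2 w) (ν := volume.restrict (Ioi 0)) h

end

theorem syb_stmt : SYBStmt := by
  intro κ _ _ A D h
  have hA := h.posDef.posSemidef
  have hD := h.herm
  have t1 : 0 ≤ (A.trace).re := (Complex.le_def.1 hA.trace_nonneg).1
  have t2 : 0 ≤ ((A * A).trace).re := by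
    have : (A * A).PosSemidef := by
      have := Matrix.posSemidef_conjTranspose_mul_self A
      rwa [hA.1.eq] at this
    exact (Complex.le_def.1 this.trace_nonneg).1
  refine ⟨((A.trace).re + Fintype.card κ) + 2 * ((A * A).trace).re, by positivity, ?_, ?_, ?_, ?_⟩
  · intro c _ y hy
    rw [le_div_iff₀ (by positivity)]
    have h1 := sy_abs_le_trace hA hD c hy
    have h2 : |sy A D y c| * y ≤ Fintype.card κ := by
      rcases eq_or_lt_of_le hy with rfl | hy0
      · simp
      · have h3 := sy_abs_le_div hA hD c hy0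
        exact (le_div_iff₀ hy0).1 h3
    rw [mul_add, mul_one]
    linarith
  · intro c _ y y' hy hy'
    have h1 := sy_lip hA hD c hy hy'
    have h2 : 0 ≤ (Fintype.card κ : ℝ) := by positivity
    refine h1.trans (mul_le_mul_of_nonneg_right ?_ (abs_nonneg _))
    linarith
  · exact (stronglyMeasurable_sy A D).aestronglyMeasurable
  · have hm : Measurable fun c : ℝ => (c, (0 : ℝ)) := by fun_prop
    have h1 := (stronglyMeasurable_sy A D).comp_measurable hm
    exact StronglyMeasurable.aestronglyMeasurable h1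

end Pool.Agent.A1W
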