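import Mathlib

/-!
# A1, block MU: layer cake for an antitone density on [-1,1]
-/

open MeasureTheory Set

namespace Pool.Agent.A1

/-- generalised inverse of an antitone function on `[-1,1]`. -/
noncomputable def ainv (s : ℝ → ℝ) (y : ℝ) : ℝ :=
  sSup (insert (-1) {c | c ∈ Icc (-1 : ℝ) 1 ∧ y < s c})

lemma ainv_bdd (s : ℝ → ℝ) (y : ℝ) :
    BddAbove (insert (-1) {c | c ∈ Icc (-1 : ℝ) 1 ∧ y < s c}) := by
  refine ⟨1, ?_⟩
  rintro x (rfl | ⟨h, -⟩)
  · norm_num
  · exact h.2

lemma ainv_mem (s : ℝ → ℝ) (y : ℝ) : ainv s y ∈ Icc (-1 : ℝ) 1 := by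
  constructor
  · exact le_csSup (ainv_bdd s y) (mem_insert _ _)
  · refine csSup_le (insert_nonempty _ _) ?_
    rintro x (rfl | ⟨h, -⟩)
    · norm_num
    · exact h.2

lemma le_ainv {s : ℝ → ℝ} {y c : ℝ} (hc : c ∈ Icc (-1 : ℝ) 1) (h : y < s c) : c ≤ ainv s y :=
  le_csSup (ainv_bdd s y) (mem_insert_of_mem _ ⟨hc, h⟩)

lemma lt_of_lt_ainv {s : ℝ → ℝ} (hs : AntitoneOn s (Icc (-1) 1)) {y c : ℝ}
    (hc : c ∈ Icc (-1 : ℝ) 1) (h : c < ainv s y) : y < s c := by
  obtain ⟨x, hx, hcx⟩ := exists_lt_of_lt_csSup (insert_nonempty _ _) h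
  rcases hx with rfl | ⟨hx1, hx2⟩
  · exact absurd hcx (not_lt.2 hc.1)
  · exact lt_of_lt_of_le hx2 (hs hc hx1 hcx.le)

lemma ainv_antitone (s : ℝ → ℝ) : Antitone (ainv s) := by
  intro y y' h
  refine csSup_le_csSup (ainv_bdd s y) (insert_nonempty _ _) ?_
  exact insert_subset_insert (fun c hc => ⟨hc.1, lt_of_le_of_lt h hc.2⟩)

lemma measurable_ainv (s : ℝ → ℝ) : Measurable (ainv s) := (ainv_antitone s).measurable

/-- for a fixed level `y` -/
lemma level_integral {s : ℝ → ℝ} (hs : AntitoneOn s (Icc (-1) 1)) (g g' : ℝ → ℝ)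
    (hg : ContinuousOn g (Icc (-1) 1)) (hd : ∀ c ∈ Ioo (-1 : ℝ) 1, HasDerivAt g (g' c) c)
    (hg' : ContinuousOn g' (Icc (-1) 1)) (y : ℝ) :
    ∫ c in Icc (-1 : ℝ) 1, (if y < s c then g' c else 0) = g (ainv s y) - g (-1) := by
  have hm := ainv_mem s y
  have h1 : ∫ c in Icc (-1 : ℝ) 1, (if y < s c then g' c else 0)
      = ∫ c in Icc (-1 : ℝ) 1, (Iic (ainv s y)).indicator g' c := by
    have hne : ∀ᵐ c : ℝ, c ≠ ainv s y := by
      have : (volume : Measure ℝ) {ainv s y} = 0 := by simp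
      exact compl_mem_ae_iff.2 this
    refine setIntegral_congr_ae measurableSet_Icc ?_
    filter_upwards [hne] with c hc hcI
    by_cases h : y < s c
    · have := le_ainv hcI h
      simp [h, indicator, this]
    · have : ¬ c ≤ ainv s y := fun h' => h (lt_of_lt_ainv hs hcI (lt_of_le_of_ne h' hc))
      simp [h, indicator, this]
  rw [h1, setIntegral_indicator measurableSet_Iic]
  have h2 : Icc (-1 : ℝ) 1 ∩ Iic (ainv s y) = Icc (-1) (ainv s y) := by
    ext c; simp only [mem_inter_iff, mem_Icc, mem_Iic]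
    constructor
    · rintro ⟨⟨a, b⟩, c⟩; exact ⟨a, c⟩
    · rintro ⟨a, b⟩; exact ⟨⟨a, b.trans hm.2⟩, b⟩
  rw [h2, integral_Icc_eq_integral_Ioc, ← intervalIntegral.integral_of_le hm.1]
  refine intervalIntegral.integral_eq_sub_of_hasDerivAt_of_le hm.1
    (hg.mono (Icc_subset_Icc le_rfl hm.2)) (fun c hc => hd c ⟨hc.1, hc.2.trans_le hm.2⟩) ?_
  exact (hg'.mono (Icc_subset_Icc le_rfl hm.2)).intervalIntegrable_of_Icc hm.1

lemma level_y {w t : ℝ} (h : |t| ≤ w) :
    ∫ y in Icc (-w) w, (if y < t then (1 : ℝ) else 0) = t + w := by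
  have h1 := abs_le.1 h
  have : (fun y : ℝ => if y < t then (1 : ℝ) else 0) = (Iio t).indicator (fun _ => 1) := by
    ext y; simp [indicator]
  rw [this, setIntegral_indicator measurableSet_Iio]
  have h2 : Icc (-w) w ∩ Iio t = Ico (-w) t := by
    ext y; simp only [mem_inter_iff, mem_Icc, mem_Iio, mem_Ico]
    constructor
    · rintro ⟨⟨a, b⟩, c⟩; exact ⟨a, c⟩
    · rintro ⟨a, b⟩; exact ⟨⟨a, b.le.trans h1.2⟩, b⟩
  rw [h2]
  simp [Real.volume_real_Ico_of_le h1.1, sub_neg_eq_add] 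

/-- the layer cake measure -/
noncomputable def muOf (s : ℝ → ℝ) (w : ℝ) : Measure ℝ :=
  (ENNReal.ofReal (1/2)) • ((volume.restrict (Icc (-w) w)).map (ainv s))

instance (s : ℝ → ℝ) (w : ℝ) : IsFiniteMeasure (muOf s w) := by
  unfold muOf
  haveI : IsFiniteMeasure (volume.restrict (Icc (-w) w)) := ⟨by simp⟩
  exact Measure.smul_finite _ (by simp)

lemma muOf_compl (s : ℝ → ℝ) (w : ℝ) : muOf s w (Icc (-1) 1)ᶜ = 0 := by
  unfold muOf
  rw [Measure.smul_apply, Measure.map_apply (measurable_ainv s) measurableSet_Icc.compl]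
  have : ainv s ⁻¹' (Icc (-1) 1)ᶜ = ∅ := by
    ext y; simp only [mem_preimage, mem_compl_iff, mem_empty_iff_false, iff_false, not_not]
    exact ainv_mem s y
  rw [this]; simp

lemma muOf_integral (s : ℝ → ℝ) (w : ℝ) {g : ℝ → ℝ} (hg : ContinuousOn g (Icc (-1) 1)) :
    Integrable g (muOf s w) ∧
      ∫ c, g c ∂(muOf s w) = 1/2 * ∫ y in Icc (-w) w, g (ainv s y) := by
  haveI : IsFiniteMeasure (volume.restrict (Icc (-w) w)) := ⟨by simp⟩
  -- continuous extension of `g`
  set G : ℝ → ℝ := IccExtend (by norm_num : (-1:ℝ) ≤ 1) ((Icc (-1:ℝ) 1).restrict g) with hG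
  have hGc : Continuous G := (continuousOn_iff_continuous_restrict.1 hg).Icc_extend'
  have hGg : ∀ c ∈ Icc (-1:ℝ) 1, G c = g c := fun c hc => by
    rw [hG, IccExtend_of_mem _ _ hc]; rfl
  have hae : g =ᵐ[muOf s w] G := by
    have : ∀ᵐ c ∂(muOf s w), c ∈ Icc (-1:ℝ) 1 := by
      rw [ae_iff]; exact muOf_compl s w
    filter_upwards [this] with c hc using (hGg c hc).symm
  obtain ⟨C, hC⟩ := isCompact_Icc.exists_bound_of_continuousOn hg
  have hGi : Integrable G (muOf s w) := by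
    refine Integrable.of_bound hGc.aestronglyMeasurable C ?_
    refine Filter.Eventually.of_forall (fun c => ?_)
    rw [hG]; exact hC _ (projIcc (-1) 1 (by norm_num) c).2
  refine ⟨hGi.congr hae.symm, ?_⟩
  rw [integral_congr_ae hae]
  unfold muOf
  rw [integral_smul_measure, integral_map (measurable_ainv s).aemeasurable
    hGc.aestronglyMeasurable]
  have : ∀ y, G (ainv s y) = g (ainv s y) := fun y => hGg _ (ainv_mem s y)
  simp only [this, smul_eq_mul]
  norm_num

theorem muOf_spec {s : ℝ → ℝ} {w : ℝ} (hs : AntitoneOn s (Icc (-1) 1))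
    (hb : ∀ c ∈ Icc (-1 : ℝ) 1, |s c| ≤ w) (g g' : ℝ → ℝ)
    (hg : ContinuousOn g (Icc (-1) 1)) (hd : ∀ c ∈ Ioo (-1 : ℝ) 1, HasDerivAt g (g' c) c)
    (hg' : ContinuousOn g' (Icc (-1) 1)) :
    Integrable g (muOf s w) ∧
      ∫ c, g c ∂(muOf s w)
        = w / 2 * (g 1 + g (-1)) + 1/2 * ∫ c in (-1 : ℝ)..1, g' c * s c := by
  haveI : IsFiniteMeasure ((volume : Measure ℝ).restrict (Icc (-w) w)) := ⟨by simp⟩
  haveI : IsFiniteMeasure ((volume : Measure ℝ).restrict (Icc (-1) 1)) := ⟨by simp⟩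
  obtain ⟨hi, he⟩ := muOf_integral s w hg
  refine ⟨hi, ?_⟩
  rw [he]
  have hw : 0 ≤ w := (abs_nonneg _).trans (hb 0 (by norm_num))
  -- clamp
  set s' : ℝ → ℝ := fun c => s (projIcc (-1) 1 (by norm_num) c : ℝ) with hs'
  have hs's : ∀ c ∈ Icc (-1:ℝ) 1, s' c = s c := fun c hc => by
    simp only [hs']; rw [projIcc_of_mem _ hc]
  have hs'a : Antitone s' := by
    intro x y h
    exact hs (projIcc (-1) 1 (by norm_num) x).2 (projIcc (-1) 1 (by norm_num) y).2
      (monotone_projIcc (by norm_num) h)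
  have hs'm : Measurable s' := hs'a.measurable
  obtain ⟨C, hC⟩ := isCompact_Icc.exists_bound_of_continuousOn hg'
  set F : ℝ → ℝ → ℝ := fun y c => if y < s' c then g' c else 0 with hF
  have hFi : Integrable (Function.uncurry F)
      ((volume.restrict (Icc (-w) w)).prod (volume.restrict (Icc (-1) 1))) := by
    have hm : MeasurableSet {p : ℝ × ℝ | p.1 < s' p.2} :=
      measurableSet_lt measurable_fst (hs'm.comp measurable_snd)
    have h1 : Function.uncurry F = {p : ℝ × ℝ | p.1 < s' p.2}.indicator (fun p => g' p.2) := by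
      ext p; simp [Function.uncurry, hF, indicator]
    rw [h1]
    refine Integrable.indicator ?_ hm
    refine Integrable.of_bound
      ((hg'.aestronglyMeasurable measurableSet_Icc).comp_snd) C ?_
    rw [Measure.prod_restrict]
    filter_upwards [ae_restrict_mem (measurableSet_Icc.prod measurableSet_Icc)] with p hp
    exact hC _ hp.2
  have hswap := integral_integral_swap hFi
  -- left side
  have hL : ∀ y, ∫ c in Icc (-1:ℝ) 1, F y c = g (ainv s y) - g (-1) := by
    intro y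
    rw [← level_integral hs g g' hg hd hg' y]
    refine setIntegral_congr_fun measurableSet_Icc (fun c hc => ?_)
    simp only [hF, hs's c hc]
  have hR : ∀ c ∈ Icc (-1:ℝ) 1, ∫ y in Icc (-w) w, F y c = g' c * (s c + w) := by
    intro c hc
    rw [← level_y (hb c hc), ← integral_const_mul]
    refine integral_congr_ae (Filter.Eventually.of_forall (fun y => ?_))
    simp only [hF, hs's c hc]
    split_ifs <;> simp
  rw [integral_congr_ae (Filter.Eventually.of_forall hL),
    setIntegral_congr_fun measurableSet_Icc hR] at hswap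
  have hgi : Integrable (fun y => g (ainv s y)) (volume.restrict (Icc (-w) w)) := by
    have h2 := hi
    by_cases hw0 : w = 0
    · subst hw0; simp
    · unfold muOf at h2
      have h3 := (integrable_smul_measure (c := ENNReal.ofReal (1/2)) (by simp) (by simp)).1 h2
      exact (integrable_map_measure h3.aestronglyMeasurable
        (measurable_ainv s).aemeasurable).1 h3
  rw [integral_sub hgi (integrable_const _), setIntegral_const] at hswap
  have hsi : IntegrableOn (fun c => g' c * s c) (Icc (-1) 1) := by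
    refine Integrable.congr (f := fun c => g' c * s' c) ?_ ?_
    · refine Integrable.of_bound ((hg'.aestronglyMeasurable measurableSet_Icc).mul
        hs'm.aestronglyMeasurable) (C * w) ?_
      filter_upwards [ae_restrict_mem measurableSet_Icc] with c hc
      rw [norm_mul, hs's c hc]
      exact mul_le_mul (hC c hc) (hb c hc) (norm_nonneg _) ((norm_nonneg _).trans (hC c hc))
    · filter_upwards [ae_restrict_mem measurableSet_Icc] with c hc
      rw [hs's c hc]
  have hgi' : IntegrableOn g' (Icc (-1) 1) := hg'.integrableOn_Icc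
  have e1 : ∫ c in Icc (-1:ℝ) 1, g' c * (s c + w)
      = (∫ c in Icc (-1:ℝ) 1, g' c * s c) + w * (g 1 - g (-1)) := by
    have : (fun c => g' c * (s c + w)) = fun c => g' c * s c + w * g' c := by
      ext c; ring
    rw [this, integral_add hsi (hgi'.const_mul w), integral_const_mul]
    congr 2
    rw [integral_Icc_eq_integral_Ioc, ← intervalIntegral.integral_of_le (by norm_num)]
    exact intervalIntegral.integral_eq_sub_of_hasDerivAt_of_le (by norm_num) hg hd
      (hg'.intervalIntegrable_of_Icc (by norm_num))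
  rw [e1] at hswap
  have e2 : ∫ c in Icc (-1:ℝ) 1, g' c * s c = ∫ c in (-1:ℝ)..1, g' c * s c := by
    rw [integral_Icc_eq_integral_Ioc, ← intervalIntegral.integral_of_le (by norm_num)]
  rw [e2] at hswap
  have e3 : (volume : Measure ℝ).real (Icc (-w) w) = 2 * w := by
    rw [Real.volume_real_Icc_of_le (by linarith)]; ring
  rw [e3, smul_eq_mul] at hswap
  linarith

/-- MU: the layer cake measure. -/
theorem exists_mu {s : ℝ → ℝ} {w : ℝ} (hs : AntitoneOn s (Icc (-1) 1))
    (hb : ∀ c ∈ Icc (-1 : ℝ) 1, |s c| ≤ w) :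
    ∃ μ : Measure ℝ, IsFiniteMeasure μ ∧ μ (Icc (-1) 1)ᶜ = 0 ∧
      ∀ g g' : ℝ → ℝ, ContinuousOn g (Icc (-1) 1) →
        (∀ c ∈ Ioo (-1 : ℝ) 1, HasDerivAt g (g' c) c) → ContinuousOn g' (Icc (-1) 1) →
        Integrable g μ ∧ ∫ c, g c ∂μ
          = w / 2 * (g 1 + g (-1)) + 1/2 * ∫ c in (-1 : ℝ)..1, g' c * s c :=
  ⟨muOf s w, inferInstance, muOf_compl s w, fun g g' h1 h2 h3 => muOf_spec hs hb g g' h1 h2 h3⟩

end Pool.Agent.A1
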