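import Mathlib

/-!
# A1, block PERC (real variable part)
-/

open MeasureTheory Set Filter Topology

namespace Pool.Agent.A1

/-- `σ` is a supergradient of `ψ` on `[0,∞)`. -/
def SuperG (ψ σ : ℝ → ℝ) : Prop := ∀ x, 0 ≤ x → ∀ y, 0 ≤ y → ψ y ≤ ψ x + (y - x) * σ x

namespace SuperG

variable {ψ σ : ℝ → ℝ}

lemma anti (h : SuperG ψ σ) : AntitoneOn σ (Ici 0) := by
  intro x hx y hy hxy
  rcases eq_or_lt_of_le hxy with rfl | hlt
  · exact le_rfl
  have h1 := h x hx y hy
  have h2 := h y hy x hx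
  have h3 : 0 ≤ (y - x) * (σ x - σ y) := by nlinarith
  have h4 : 0 < y - x := by linarith
  have := nonneg_of_mul_nonneg_right h3 h4
  linarith

lemma countable (h : SuperG ψ σ) :
    {x ∈ Ici (0:ℝ) | ¬ ContinuousWithinAt σ (Ici 0) x}.Countable :=
  h.anti.countable_not_continuousWithinAt

lemma hasDerivAt (h : SuperG ψ σ) {x : ℝ} (hx : 0 < x)
    (hc : ContinuousWithinAt σ (Ici 0) x) : HasDerivAt ψ (σ x) x := by
  have hc' : ContinuousAt σ x := hc.continuousAt (Ici_mem_nhds hx)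
  rw [hasDerivAt_iff_isLittleO, Asymptotics.isLittleO_iff]
  intro ε hε
  have h1 : ∀ᶠ y in 𝓝 x, |σ y - σ x| < ε := by
    have := Metric.continuousAt_iff'.1 hc' ε hε
    simpa [Real.dist_eq] using this
  filter_upwards [h1, Ici_mem_nhds hx] with y hy hy0
  have h2 := h x hx.le y hy0
  have h3 := h y hy0 x hx.le
  rw [Real.norm_eq_abs, Real.norm_eq_abs, smul_eq_mul]
  have h4 : (y - x) * (σ y - σ x) ≤ ψ y - ψ x - (y - x) * σ x := by nlinarith
  have h5 : ψ y - ψ x - (y - x) * σ x ≤ 0 := by linarith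
  rw [abs_of_nonpos h5]
  have h6 : |(y - x) * (σ y - σ x)| ≤ ε * |y - x| := by
    rw [abs_mul, mul_comm ε]
    exact mul_le_mul_of_nonneg_left hy.le (abs_nonneg _)
  have h7 := neg_abs_le ((y - x) * (σ y - σ x))
  linarith

lemma continuousOn (h : SuperG ψ σ) (R : ℝ) : ContinuousOn ψ (Icc 0 R) := by
  rcases lt_or_ge R 0 with hR | hR
  · rw [Icc_eq_empty (not_le.2 hR)]; exact continuousOn_empty _
  have hanti := h.anti
  set C : ℝ := max |σ 0| |σ R| with hC
  have hb : ∀ x ∈ Icc 0 R, |σ x| ≤ C := by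
    intro x hx
    have a1 : σ x ≤ σ 0 := hanti (mem_Ici.2 le_rfl) (mem_Ici.2 hx.1) hx.1
    have a2 : σ R ≤ σ x := hanti (mem_Ici.2 hx.1) (mem_Ici.2 hR) hx.2
    rw [abs_le]
    constructor
    · have := neg_abs_le (σ R); have := le_max_right |σ 0| |σ R|; linarith
    · have := le_abs_self (σ 0); have := le_max_left |σ 0| |σ R|; linarith
  have hC0 : 0 ≤ C := (abs_nonneg _).trans (le_max_left _ _)
  have hL : LipschitzOnWith (Real.toNNReal C) ψ (Icc 0 R) := by
    refine LipschitzOnWith.of_dist_le_mul (fun x hx y hy => ?_)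
    rw [Real.coe_toNNReal _ hC0, Real.dist_eq, Real.dist_eq]
    have h1 := h x hx.1 y hy.1
    have h2 := h y hy.1 x hx.1
    have e1 : |(y - x) * σ x| ≤ C * |x - y| := by
      rw [abs_mul, mul_comm, abs_sub_comm y x]
      exact mul_le_mul_of_nonneg_right (hb x hx) (abs_nonneg _)
    have e2 : |(x - y) * σ y| ≤ C * |x - y| := by
      rw [abs_mul, mul_comm]
      exact mul_le_mul_of_nonneg_right (hb y hy) (abs_nonneg _)
    rw [abs_le]
    constructor
    · have := le_abs_self ((y - x) * σ x); linarith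
    · have := le_abs_self ((x - y) * σ y); linarith
  exact hL.continuousOn

lemma intervalIntegrable (h : SuperG ψ σ) {R : ℝ} (hR : 0 ≤ R) :
    IntervalIntegrable σ volume 0 R := by
  refine AntitoneOn.intervalIntegrable ?_
  rw [uIcc_of_le hR]
  exact h.anti.mono (fun x hx => hx.1)

end SuperG

/-- PERC, real variable form.  `ψ i, σ i` are `Tr H_i S_i`, `Tr S_i`; `B = ψ₀ + κ - ψ₁`. -/
theorem perc_real {a : ℝ} (ha : 0 < a) {ψ₀ σ₀ ψ₁ σ₁ q : ℝ → ℝ} {κ : ℝ}
    (h0 : SuperG ψ₀ σ₀) (h1 : SuperG ψ₁ σ₁)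
    (hB : ∀ r, 0 ≤ r → ψ₁ r ≤ ψ₀ r + κ)
    (hq : ∀ r, 0 < r → (a - 1) * (ψ₀ r + κ - ψ₁ r) ≤ 2 * q r) {R : ℝ} (hR : 0 ≤ R) :
    0 ≤ ∫ r in (0:ℝ)..R,
      r ^ (a - 1) * (2 * q r + (ψ₀ r + κ - ψ₁ r) - r * (σ₁ r - σ₀ r)) := by
  set f : ℝ → ℝ := fun r =>
    r ^ (a - 1) * (2 * q r + (ψ₀ r + κ - ψ₁ r) - r * (σ₁ r - σ₀ r)) with hf
  by_cases hfi : IntervalIntegrable f volume 0 R
  swap
  · rw [intervalIntegral.integral_undef hfi]
  set B : ℝ → ℝ := fun r => ψ₀ r + κ - ψ₁ r with hBdef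
  have hBc : ContinuousOn B (Icc 0 R) :=
    ((h0.continuousOn R).add continuousOn_const).sub (h1.continuousOn R)
  set G : ℝ → ℝ := fun r => r ^ a * B r with hG
  set h : ℝ → ℝ := fun r => a * r ^ (a - 1) * B r + r ^ a * (σ₀ r - σ₁ r) with hh
  have hpowc : ContinuousOn (fun r : ℝ => r ^ a) (Icc 0 R) :=
    (Real.continuous_rpow_const ha.le).continuousOn
  have hGc : ContinuousOn G (Icc 0 R) := hpowc.mul hBc
  set bad : Set ℝ := {x ∈ Ici (0:ℝ) | ¬ ContinuousWithinAt σ₀ (Ici 0) x} ∪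
    {x ∈ Ici (0:ℝ) | ¬ ContinuousWithinAt σ₁ (Ici 0) x} with hbad
  have hbadc : bad.Countable := h0.countable.union h1.countable
  have hGd : ∀ x ∈ Ioo 0 R \ bad, HasDerivAt G (h x) x := by
    rintro x ⟨⟨hx0, hxR⟩, hxb⟩
    have c0 : ContinuousWithinAt σ₀ (Ici 0) x := by
      by_contra hc; exact hxb (Or.inl ⟨hx0.le, hc⟩)
    have c1 : ContinuousWithinAt σ₁ (Ici 0) x := by
      by_contra hc; exact hxb (Or.inr ⟨hx0.le, hc⟩)
    have d0 := h0.hasDerivAt hx0 c0
    have d1 := h1.hasDerivAt hx0 c1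
    have dp : HasDerivAt (fun r : ℝ => r ^ a) (a * x ^ (a - 1)) x :=
      Real.hasDerivAt_rpow_const (Or.inl hx0.ne')
    exact dp.mul ((d0.add_const κ).sub d1)
  have hpi : IntervalIntegrable (fun r : ℝ => r ^ (a - 1)) volume 0 R :=
    intervalIntegral.intervalIntegrable_rpow' (by linarith)
  have hhi : IntervalIntegrable h volume 0 R := by
    refine IntervalIntegrable.add ?_ ?_
    · refine (hpi.const_mul a).mul_continuousOn ?_
      rw [uIcc_of_le hR]; exact hBc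
    · refine ((h0.intervalIntegrable hR).sub (h1.intervalIntegrable hR)).continuousOn_mul ?_
      rw [uIcc_of_le hR]; exact hpowc
  have hint : ∫ r in (0:ℝ)..R, h r = G R - G 0 :=
    integral_eq_of_hasDerivAt_off_countable_of_le G h hR hbadc hGc hGd hhi
  have hG0 : G 0 = 0 := by simp [hG, Real.zero_rpow ha.ne']
  have hGR : 0 ≤ G R := by
    refine mul_nonneg (Real.rpow_nonneg hR a) ?_
    have := hB R hR
    simp only [hBdef]; linarith
  have hsub : IntervalIntegrable (fun r => f r - h r) volume 0 R := hfi.sub hhi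
  have hnn : 0 ≤ ∫ r in (0:ℝ)..R, (f r - h r) := by
    refine intervalIntegral.integral_nonneg_of_ae_restrict hR ?_
    have hne : ∀ᵐ r : ℝ ∂(volume.restrict (Icc 0 R)), r ≠ 0 := by
      have : (volume : Measure ℝ) {(0:ℝ)} = 0 := by simp
      exact ae_restrict_of_ae (compl_mem_ae_iff.2 this)
    filter_upwards [hne, ae_restrict_mem measurableSet_Icc] with r hr0 hrI
    have hr : 0 < r := lt_of_le_of_ne hrI.1 (Ne.symm hr0)
    have e : r ^ a = r ^ (a - 1) * r := by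
      rw [← Real.rpow_add_one hr.ne']; ring_nf
    have : f r - h r = r ^ (a - 1) * (2 * q r - (a - 1) * B r) := by
      simp only [hf, hh, hBdef, e]; ring
    simp only [Pi.zero_apply]
    rw [this]
    refine mul_nonneg (Real.rpow_nonneg hr.le _) ?_
    have := hq r hr
    simp only [hBdef]; linarith
  have : ∫ r in (0:ℝ)..R, f r = (∫ r in (0:ℝ)..R, h r) + ∫ r in (0:ℝ)..R, (f r - h r) := by
    rw [← intervalIntegral.integral_add hhi hsub]
    congr 1; ext r; ring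
  rw [this, hint, hG0]
  linarith

end Pool.Agent.A1
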