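import Pool.Agent.Lib_helper50.A1.Ub
import Pool.Agent.Lib_helper59.A1.Defs

/-!
# A1, blocks QDI, SYB: the scalar function `s(y,c)`
-/

open scoped BigOperators ComplexOrder Kronecker MatrixOrder Topology
open MeasureTheory Set Matrix Filter

namespace Pool.Agent.A1W

open Pool.Agent.RC Pool.Agent.A1 Pool.Agent.A1.Frame

set_option linter.unusedSectionVars false

variable {ι κ : Type} [Fintype ι] [DecidableEq ι] [Fintype κ] [DecidableEq κ]

omit [Fintype κ] [DecidableEq κ] in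
theorem WcH {R D : Matrix κ κ ℂ} (hR : R.IsHermitian) (hD : D.IsHermitian) (c : ℝ) :
    (Wc R D c).IsHermitian := by
  unfold Wc
  refine hD.sub ?_
  unfold Matrix.IsHermitian
  rw [Matrix.conjTranspose_smul, hR.eq]
  simp

theorem posDef_one_add {R : Matrix κ κ ℂ} (hR : R.PosSemidef) {y : ℝ} (hy : 0 ≤ y) :
    (1 + (y : ℂ) • R).PosDef := by
  have h : ((y : ℂ) • R).PosSemidef := hR.smul (by exact_mod_cast hy)
  exact Matrix.PosDef.one.add_posSemidef h

/-! ### the integrand and the function `s` -/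

/-- `-(1/w) Im Tr R (1 + y R + i w W_c)⁻¹` -/
noncomputable def sf (R D : Matrix κ κ ℂ) (c y w : ℝ) : ℝ :=
  -(((R * (Zm (1 + (y : ℂ) • R) (Wc R D c) w)⁻¹).trace).im / w)

theorem sy_eq_sf (R D : Matrix κ κ ℂ) (y c : ℝ) :
    sy R D y c = 2 / Real.pi * ∫ w in Ioi (0 : ℝ), sf R D c y w := by
  unfold sy sf Zm
  congr 1
  refine setIntegral_congr_fun measurableSet_Ioi (fun w _ => ?_)
  rw [mul_comm (w : ℂ) Complex.I]
  ring

section bounds

variable {R D : Matrix κ κ ℂ}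

theorem sf_integrable (hR : R.PosSemidef) (hD : D.IsHermitian) (c : ℝ) {y : ℝ} (hy : 0 ≤ y) :
    IntegrableOn (sf R D c y) (Ioi 0) := by
  obtain ⟨V, W, l, h⟩ := exists_frame (posDef_one_add hR hy) (WcH hR.1 hD c)
  exact h.integrable_im hR.1

theorem dgn_nonneg {B V : Matrix κ κ ℂ} (hB : B.PosSemidef) (k : κ) : 0 ≤ (dgn V B k).re := by
  have h1 : (Vᴴ * B * V).PosSemidef := hB.conjTranspose_mul_mul_same V
  have h2 := h1.diag_nonneg (i := k)
  exact (Complex.le_def.1 h2).1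

theorem sum_dgn {N J V W : Matrix κ κ ℂ} {l : κ → ℝ} (h : Frame N J V W l) (B : Matrix κ κ ℂ) :
    ∑ k, (dgn V B k).re = ((B * N⁻¹).trace).re := by
  rw [h.invN]
  have : (B * (V * Vᴴ)).trace = (Vᴴ * B * V).trace := by
    calc (B * (V * Vᴴ)).trace = ((B * V) * Vᴴ).trace := by rw [mul_assoc]
      _ = (Vᴴ * (B * V)).trace := Matrix.trace_mul_comm _ _
      _ = _ := by rw [mul_assoc]
  rw [this]
  unfold Matrix.trace dgn
  rw [Complex.re_sum]
  rfl

theorem sy_eq (hR : R.PosSemidef) {c y : ℝ} {V W : Matrix κ κ ℂ} {l : κ → ℝ}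
    (h : Frame (1 + (y : ℂ) • R) (Wc R D c) V W l) :
    sy R D y c = ∑ k, (dgn V R k).re * (SignType.sign (l k) : ℝ) := by
  rw [sy_eq_sf]
  have e : ∫ w in Ioi (0 : ℝ), sf R D c y w =
      ∫ w in Ioi (0 : ℝ), ∑ k, (dgn V R k).re * (l k * ker (l k) w) := by
    refine setIntegral_congr_fun measurableSet_Ioi (fun w hw => ?_)
    exact h.im_div hR.1 (ne_of_gt hw)
  rw [e, integral_finsetSum _ fun k _ => (integrableOn_mul_ker (l k)).const_mul _,
    Finset.mul_sum]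
  refine Finset.sum_congr rfl (fun k _ => ?_)
  rw [integral_const_mul, integral_mul_ker]
  have := Real.pi_pos
  field_simp

theorem sy_abs_le (hR : R.PosSemidef) (hD : D.IsHermitian) (c : ℝ) {y : ℝ} (hy : 0 ≤ y) :
    |sy R D y c| ≤ ((R * (1 + (y : ℂ) • R)⁻¹).trace).re := by
  obtain ⟨V, W, l, h⟩ := exists_frame (posDef_one_add hR hy) (WcH hR.1 hD c)
  rw [sy_eq hR h, ← sum_dgn h R]
  refine (Finset.abs_sum_le_sum_abs _ _).trans (Finset.sum_le_sum fun k _ => ?_)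
  rw [abs_mul, abs_of_nonneg (dgn_nonneg hR k)]
  have : |((SignType.sign (l k) : SignType) : ℝ)| ≤ 1 := by
    rcases lt_trichotomy (l k) 0 with h | h | h
    · rw [sign_neg h]; simp
    · rw [h]; simp
    · rw [sign_pos h]; simp
  nlinarith [dgn_nonneg (V := V) hR k]

theorem one_add_sub_one (hR : R.PosSemidef) {y : ℝ} (hy : 0 ≤ y) :
    ((1 + (y : ℂ) • R) - ((1 : ℝ) : ℂ) • (1 : Matrix κ κ ℂ)).PosSemidef := by
  have : (1 + (y : ℂ) • R) - ((1 : ℝ) : ℂ) • (1 : Matrix κ κ ℂ) = (y : ℂ) • R := by simp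
  rw [this]
  exact hR.smul (by exact_mod_cast hy)

theorem trace_mul_inv_le_one (hR : R.PosSemidef) {y : ℝ} (hy : 0 ≤ y) {P : Matrix κ κ ℂ}
    (hP : P.PosSemidef) : ((P * (1 + (y : ℂ) • R)⁻¹).trace).re ≤ (P.trace).re := by
  have := trace_mul_inv_le one_pos (one_add_sub_one hR hy) hP
  simpa using this

theorem sy_abs_le_trace (hR : R.PosSemidef) (hD : D.IsHermitian) (c : ℝ) {y : ℝ} (hy : 0 ≤ y) :
    |sy R D y c| ≤ (R.trace).re :=
  (sy_abs_le hR hD c hy).trans (trace_mul_inv_le_one hR hy hR)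

theorem sy_abs_le_div (hR : R.PosSemidef) (hD : D.IsHermitian) (c : ℝ) {y : ℝ} (hy : 0 < y) :
    |sy R D y c| ≤ Fintype.card κ / y := by
  refine (sy_abs_le hR hD c hy.le).trans ?_
  rw [le_div_iff₀ hy]
  have hN := posDef_one_add hR hy.le
  have hdet : IsUnit (1 + (y : ℂ) • R).det := (Matrix.isUnit_iff_isUnit_det _).1 hN.isUnit
  have e : (y : ℂ) • (R * (1 + (y : ℂ) • R)⁻¹) = 1 - (1 + (y : ℂ) • R)⁻¹ := by
    have h1 : (1 + (y : ℂ) • R) * (1 + (y : ℂ) • R)⁻¹ = 1 := Matrix.mul_nonsing_inv _ hdet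
    rw [add_mul, one_mul, Matrix.smul_mul] at h1
    exact eq_sub_of_add_eq' h1
  have e2 : ((R * (1 + (y : ℂ) • R)⁻¹).trace).re * y =
      (Fintype.card κ : ℝ) - (((1 + (y : ℂ) • R)⁻¹).trace).re := by
    have h2 := congrArg (fun A : Matrix κ κ ℂ => (A.trace).re) e
    simp only [Matrix.trace_smul, Matrix.trace_sub, Matrix.trace_one, smul_eq_mul,
      Complex.re_ofReal_mul, Complex.sub_re, Complex.natCast_re] at h2
    linarith
  rw [e2]
  have h3 := (Complex.le_def.1 hN.inv.posSemidef.trace_nonneg).1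
  simp only [Complex.zero_re] at h3
  linarith

/-! ### the two frame formula and the Lipschitz bound -/

theorem two_frame {N J V W N' V' W' : Matrix κ κ ℂ} {l l' : κ → ℝ} (h : Frame N J V W l)
    (h' : Frame N' J V' W' l') {B : Matrix κ κ ℂ} (hB : B.IsHermitian) (w : ℝ) :
    (B * (Zm N J w)⁻¹ * B * (Zm N' J w)⁻¹).trace =
      ∑ k, ∑ m, ((‖(Vᴴ * B * V') k m‖ ^ 2 : ℝ) : ℂ) *
        ((1 + ((w * l k : ℝ) : ℂ) * Complex.I)⁻¹ * (1 + ((w * l' m : ℝ) : ℂ) * Complex.I)⁻¹) := by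
  rw [h.invZ w, h'.invZ w]
  set E := Matrix.diagonal (fun i => (1 + ((w * l i : ℝ) : ℂ) * Complex.I)⁻¹) with hE
  set E' := Matrix.diagonal (fun i => (1 + ((w * l' i : ℝ) : ℂ) * Complex.I)⁻¹) with hE'
  set ρ := Vᴴ * B * V' with hρ
  have hρ' : ρᴴ = V'ᴴ * B * V := by
    rw [hρ, Matrix.conjTranspose_mul, Matrix.conjTranspose_mul, Matrix.conjTranspose_conjTranspose,
      hB.eq, mul_assoc]
  have e : (B * (V * E * Vᴴ) * B * (V' * E' * V'ᴴ)).trace = (ρᴴ * E * (ρ * E')).trace := by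
    calc (B * (V * E * Vᴴ) * B * (V' * E' * V'ᴴ)).trace
        = ((B * V * E * (Vᴴ * B * V') * E') * V'ᴴ).trace := by congr 1; noncomm_ring
      _ = (V'ᴴ * (B * V * E * (Vᴴ * B * V') * E')).trace := Matrix.trace_mul_comm _ _
      _ = _ := by rw [hρ', hρ]; congr 1; noncomm_ring
  rw [e]
  have e2 : (ρᴴ * E * (ρ * E')).trace = ∑ m, ∑ k, (ρᴴ * E) m k * (ρ * E') k m := by
    unfold Matrix.trace
    refine Finset.sum_congr rfl (fun m _ => ?_)
    rw [Matrix.diag_apply, Matrix.mul_apply]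
  rw [e2, Finset.sum_comm]
  refine Finset.sum_congr rfl (fun k _ => Finset.sum_congr rfl (fun m _ => ?_))
  rw [hE, hE', Matrix.mul_diagonal, Matrix.mul_diagonal, Matrix.conjTranspose_apply,
    Complex.star_def]
  have e3 : ((‖ρ k m‖ ^ 2 : ℝ) : ℂ) = (starRingEnd ℂ) (ρ k m) * ρ k m := by
    rw [mul_comm, Complex.mul_conj, Complex.normSq_eq_norm_sq]
  rw [e3]
  ring

theorem im_mul_inv (a b : ℝ) :
    ((1 + (a : ℂ) * Complex.I)⁻¹ * (1 + (b : ℂ) * Complex.I)⁻¹).im =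
      -(a + b) * ((1 + a ^ 2)⁻¹ * (1 + b ^ 2)⁻¹) := by
  rw [Complex.mul_im, Frame.re_inv, Frame.im_inv, Frame.re_inv, Frame.im_inv]
  ring

theorem Zm_sub (N N' J : Matrix κ κ ℂ) (w : ℝ) : Zm N' J w - Zm N J w = N' - N := by
  unfold Zm; abel

theorem sf_sub (hR : R.PosSemidef) (hD : D.IsHermitian) (c : ℝ) {y y' : ℝ} (hy : 0 ≤ y)
    (hy' : 0 ≤ y') (w : ℝ) :
    sf R D c y w - sf R D c y' w = (y - y') *
      (((R * (Zm (1 + (y : ℂ) • R) (Wc R D c) w)⁻¹ * R *
        (Zm (1 + (y' : ℂ) • R) (Wc R D c) w)⁻¹).trace).im / w) := by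
  obtain ⟨V, W, l, h⟩ := exists_frame (posDef_one_add hR hy) (WcH hR.1 hD c)
  obtain ⟨V', W', l', h'⟩ := exists_frame (posDef_one_add hR hy') (WcH hR.1 hD c)
  unfold sf
  set Z := Zm (1 + (y : ℂ) • R) (Wc R D c) w with hZ
  set Z' := Zm (1 + (y' : ℂ) • R) (Wc R D c) w with hZ'
  have hu : IsUnit Z.det := (Matrix.isUnit_iff_isUnit_det _).1 (h.isUnitZ w)
  have hu' : IsUnit Z'.det := (Matrix.isUnit_iff_isUnit_det _).1 (h'.isUnitZ w)
  have e1 : Z⁻¹ - Z'⁻¹ = Z⁻¹ * (Z' - Z) * Z'⁻¹ := by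
    rw [mul_sub, sub_mul, mul_assoc, Matrix.mul_nonsing_inv _ hu', mul_one,
      Matrix.nonsing_inv_mul _ hu, one_mul]
  have e2 : Z' - Z = (((y' - y : ℝ)) : ℂ) • R := by
    rw [hZ, hZ', Zm_sub]
    ext i j
    simp only [Matrix.sub_apply, Matrix.add_apply, Matrix.smul_apply, smul_eq_mul]
    push_cast; ring
  have e3 : (R * Z⁻¹).trace - (R * Z'⁻¹).trace =
      (((y' - y : ℝ)) : ℂ) * (R * Z⁻¹ * R * Z'⁻¹).trace := by
    rw [← Matrix.trace_sub, ← Matrix.mul_sub, e1, e2, Matrix.mul_smul, Matrix.smul_mul,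
      Matrix.mul_smul, Matrix.trace_smul, smul_eq_mul]
    congr 2
    noncomm_ring
  have e4 := congrArg Complex.im e3
  rw [Complex.sub_im, Complex.im_ofReal_mul] at e4
  rw [← neg_sub y y'] at e4
  have e5 : -((R * Z⁻¹).trace.im / w) - -((R * Z'⁻¹).trace.im / w) =
      -(((R * Z⁻¹).trace.im - (R * Z'⁻¹).trace.im) / w) := by ring
  rw [e5, e4]
  ring

theorem sum_norm_sq {N J V W N' V' W' : Matrix κ κ ℂ} {l l' : κ → ℝ} (h : Frame N J V W l)
    (h' : Frame N' J V' W' l') {B : Matrix κ κ ℂ} (hB : B.IsHermitian) :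
    ∑ k, ∑ m, ‖(Vᴴ * B * V') k m‖ ^ 2 = ((B * N'⁻¹ * B * N⁻¹).trace).re := by
  rw [h.invN, h'.invN]
  set ρ := Vᴴ * B * V' with hρ
  have hρ' : ρᴴ = V'ᴴ * B * V := by
    rw [hρ, Matrix.conjTranspose_mul, Matrix.conjTranspose_mul, Matrix.conjTranspose_conjTranspose,
      hB.eq, mul_assoc]
  have e : (B * (V' * V'ᴴ) * B * (V * Vᴴ)).trace = (ρ * ρᴴ).trace := by
    calc (B * (V' * V'ᴴ) * B * (V * Vᴴ)).trace
        = ((B * (V' * V'ᴴ) * B * V) * Vᴴ).trace := by congr 1; noncomm_ring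
      _ = (Vᴴ * (B * (V' * V'ᴴ) * B * V)).trace := Matrix.trace_mul_comm _ _
      _ = _ := by rw [hρ', hρ]; congr 1; noncomm_ring
  rw [e]
  unfold Matrix.trace
  rw [Complex.re_sum]
  refine Finset.sum_congr rfl (fun k _ => ?_)
  rw [Matrix.diag_apply, Matrix.mul_apply, Complex.re_sum]
  refine Finset.sum_congr rfl (fun m _ => ?_)
  rw [Matrix.conjTranspose_apply, Complex.star_def, Complex.mul_conj, Complex.ofReal_re,
    Complex.normSq_eq_norm_sq]

/-- (7.1), Lipschitz bound -/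
theorem sy_lip (hR : R.PosSemidef) (hD : D.IsHermitian) (c : ℝ) {y y' : ℝ} (hy : 0 ≤ y)
    (hy' : 0 ≤ y') : |sy R D y c - sy R D y' c| ≤ 2 * ((R * R).trace).re * |y - y'| := by
  obtain ⟨V, W, l, h⟩ := exists_frame (posDef_one_add hR hy) (WcH hR.1 hD c)
  obtain ⟨V', W', l', h'⟩ := exists_frame (posDef_one_add hR hy') (WcH hR.1 hD c)
  have hi := sf_integrable hR hD c hy
  have hi' := sf_integrable hR hD c hy'
  have hpi := Real.pi_pos
  set ρ := Vᴴ * R * V' with hρ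
  -- pointwise bound
  have hpt : ∀ w ∈ Ioi (0:ℝ), |sf R D c y w - sf R D c y' w| ≤
      |y - y'| * ∑ k, ∑ m, ‖ρ k m‖ ^ 2 * (|l k| * ker (l k) w + |l' m| * ker (l' m) w) := by
    intro w hw
    have hw0 : (0:ℝ) < w := hw
    rw [sf_sub hR hD c hy hy' w, abs_mul]
    refine mul_le_mul_of_nonneg_left ?_ (abs_nonneg _)
    rw [two_frame h h' hR.1 w, Complex.im_sum, Finset.sum_div]
    refine (Finset.abs_sum_le_sum_abs _ _).trans (Finset.sum_le_sum fun k _ => ?_)
    rw [Complex.im_sum, Finset.sum_div]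
    refine (Finset.abs_sum_le_sum_abs _ _).trans (Finset.sum_le_sum fun m _ => ?_)
    rw [Complex.im_ofReal_mul, im_mul_inv]
    have e : ‖ρ k m‖ ^ 2 * (-(w * l k + w * l' m) * ((1 + (w * l k) ^ 2)⁻¹ *
        (1 + (w * l' m) ^ 2)⁻¹)) / w =
        -(‖ρ k m‖ ^ 2 * ((l k + l' m) * (ker (l k) w * ker (l' m) w))) := by
      unfold A1.ker; field_simp
    rw [e, abs_neg, abs_mul, abs_of_nonneg (by positivity : (0:ℝ) ≤ ‖ρ k m‖ ^ 2)]
    refine mul_le_mul_of_nonneg_left ?_ (by positivity)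
    have k1 := ker_nonneg (l k) w
    have k2 := ker_nonneg (l' m) w
    have k1' : ker (l k) w ≤ 1 := by
      unfold A1.ker; exact inv_le_one_of_one_le₀ (by nlinarith [sq_nonneg (w * l k)])
    have k2' : ker (l' m) w ≤ 1 := by
      unfold A1.ker; exact inv_le_one_of_one_le₀ (by nlinarith [sq_nonneg (w * l' m)])
    rw [abs_mul, abs_of_nonneg (mul_nonneg k1 k2)]
    calc |l k + l' m| * (ker (l k) w * ker (l' m) w)
        ≤ (|l k| + |l' m|) * (ker (l k) w * ker (l' m) w) :=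
          mul_le_mul_of_nonneg_right (abs_add_le _ _) (mul_nonneg k1 k2)
      _ = |l k| * (ker (l k) w * ker (l' m) w) + |l' m| * (ker (l k) w * ker (l' m) w) := by ring
      _ ≤ |l k| * ker (l k) w + |l' m| * ker (l' m) w := by
        refine add_le_add ?_ ?_
        · exact mul_le_mul_of_nonneg_left (mul_le_of_le_one_right k1 k2') (abs_nonneg _)
        · exact mul_le_mul_of_nonneg_left (mul_le_of_le_one_left k2 k1') (abs_nonneg _)
  have hA : ∀ x : ℝ, IntegrableOn (fun w => |x| * ker x w) (Ioi 0) := by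
    intro x
    by_cases hx : x = 0
    · simp [hx]
    · exact (integrableOn_ker hx).const_mul _
  have hterm : ∀ k m, IntegrableOn (fun w =>
      ‖ρ k m‖ ^ 2 * (|l k| * ker (l k) w + |l' m| * ker (l' m) w)) (Ioi 0) := fun k m =>
    ((hA (l k)).add (hA (l' m))).const_mul _
  have hsumi : IntegrableOn (fun w => ∑ k, ∑ m,
      ‖ρ k m‖ ^ 2 * (|l k| * ker (l k) w + |l' m| * ker (l' m) w)) (Ioi 0) :=
    integrable_finsetSum _ fun k _ => integrable_finsetSum _ fun m _ => hterm k m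
  have h1 : |∫ w in Ioi (0:ℝ), (sf R D c y w - sf R D c y' w)| ≤
      |y - y'| * (∑ k, ∑ m, ‖ρ k m‖ ^ 2 * Real.pi) := by
    calc |∫ w in Ioi (0:ℝ), (sf R D c y w - sf R D c y' w)|
        ≤ ∫ w in Ioi (0:ℝ), |sf R D c y w - sf R D c y' w| := by
          have := norm_integral_le_integral_norm (μ := volume.restrict (Ioi (0:ℝ)))
            (fun w => sf R D c y w - sf R D c y' w)
          simpa only [Real.norm_eq_abs] using this
      _ ≤ ∫ w in Ioi (0:ℝ), |y - y'| * ∑ k, ∑ m,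
            ‖ρ k m‖ ^ 2 * (|l k| * ker (l k) w + |l' m| * ker (l' m) w) :=
          setIntegral_mono_on (hi.sub hi').abs (hsumi.const_mul _) measurableSet_Ioi hpt
      _ = |y - y'| * ∑ k, ∑ m, ∫ w in Ioi (0:ℝ),
            ‖ρ k m‖ ^ 2 * (|l k| * ker (l k) w + |l' m| * ker (l' m) w) := by
          rw [integral_const_mul, integral_finsetSum _ fun k _ =>
            integrable_finsetSum _ fun m _ => hterm k m]
          congr 1
          refine Finset.sum_congr rfl (fun k _ => ?_)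
          exact integral_finsetSum _ fun m _ => hterm k m
      _ ≤ |y - y'| * (∑ k, ∑ m, ‖ρ k m‖ ^ 2 * Real.pi) := by
          refine mul_le_mul_of_nonneg_left ?_ (abs_nonneg _)
          refine Finset.sum_le_sum fun k _ => Finset.sum_le_sum fun m _ => ?_
          rw [integral_const_mul]
          refine mul_le_mul_of_nonneg_left ?_ (by positivity)
          rw [integral_add (hA (l k)) (hA (l' m))]
          have := integral_abs_mul_ker_le (l k)
          have := integral_abs_mul_ker_le (l' m)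
          linarith
  have h2 : ∑ k, ∑ m, ‖ρ k m‖ ^ 2 * Real.pi ≤ Real.pi * ((R * R).trace).re := by
    have e1 : ∑ k, ∑ m, ‖ρ k m‖ ^ 2 * Real.pi = Real.pi * ∑ k, ∑ m, ‖ρ k m‖ ^ 2 := by
      rw [Finset.mul_sum]
      refine Finset.sum_congr rfl (fun k _ => ?_)
      rw [Finset.mul_sum]
      refine Finset.sum_congr rfl (fun m _ => ?_)
      ring
    rw [e1, hρ, sum_norm_sq h h' hR.1]
    refine mul_le_mul_of_nonneg_left ?_ hpi.le
    have hP : (R * (1 + (y' : ℂ) • R)⁻¹ * R).PosSemidef := by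
      have := (posDef_one_add hR hy').inv.posSemidef.conjTranspose_mul_mul_same R
      rwa [hR.1.eq] at this
    refine (trace_mul_inv_le_one hR hy hP).trans ?_
    have hRR : (R * R).PosSemidef := by
      have := Matrix.posSemidef_conjTranspose_mul_self R
      rwa [hR.1.eq] at this
    have e2 : (R * (1 + (y' : ℂ) • R)⁻¹ * R).trace = (R * R * (1 + (y' : ℂ) • R)⁻¹).trace := by
      rw [Matrix.trace_mul_comm, ← mul_assoc]
    rw [e2]
    exact trace_mul_inv_le_one hR hy' hRR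
  rw [sy_eq_sf, sy_eq_sf]
  rw [← mul_sub, ← integral_sub hi hi', abs_mul, abs_of_pos (by positivity : 0 < 2 / Real.pi)]
  calc 2 / Real.pi * |∫ w in Ioi (0:ℝ), (sf R D c y w - sf R D c y' w)|
      ≤ 2 / Real.pi * (|y - y'| * (Real.pi * ((R * R).trace).re)) := by
        refine mul_le_mul_of_nonneg_left (h1.trans ?_) (by positivity)
        exact mul_le_mul_of_nonneg_left h2 (abs_nonneg _)
    _ = 2 * ((R * R).trace).re * |y - y'| := by field_simp

end bounds

end Pool.Agent.A1W
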