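import Pool.Agent.Lib_helper52.A1.Qbd

/-!
# A1, block QDI: block formula for `q(c,ε)`
-/

open scoped BigOperators ComplexOrder Kronecker MatrixOrder Topology
open MeasureTheory Set Matrix Filter

namespace Pool.Agent.A1W

open Pool.Agent.RC Pool.Agent.A1

set_option linter.unusedSectionVars false

variable {ι κ : Type} [Fintype ι] [DecidableEq ι] [Fintype κ] [DecidableEq κ]

section blocks

/-- the spectral projections of a frame `U` -/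
noncomputable def Pj (U : Matrix ι ι ℂ) (i : ι) : Matrix ι ι ℂ :=
  U * Matrix.single i i (1 : ℂ) * Uᴴ

variable {U : Matrix ι ι ℂ}

theorem Pj_mul (hU : Uᴴ * U = 1) (i j : ι) : Pj U i * Pj U j = if i = j then Pj U i else 0 := by
  unfold Pj
  have e : U * Matrix.single i i (1 : ℂ) * Uᴴ * (U * Matrix.single j j (1 : ℂ) * Uᴴ) =
      U * (Matrix.single i i (1 : ℂ) * Matrix.single j j (1 : ℂ)) * Uᴴ := by
    calc U * Matrix.single i i (1 : ℂ) * Uᴴ * (U * Matrix.single j j (1 : ℂ) * Uᴴ)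
        = U * (Matrix.single i i (1 : ℂ) * (Uᴴ * U) * Matrix.single j j (1 : ℂ)) * Uᴴ := by
          noncomm_ring
      _ = _ := by rw [hU, mul_one]
  rw [e]
  split_ifs with h
  · subst h
    rw [Matrix.single_mul_single_same, mul_one]
  · rw [Matrix.single_mul_single_of_ne (h := h)]; simp

theorem sum_smul_Pj (U : Matrix ι ι ℂ) (x : ι → ℂ) :
    ∑ i, x i • Pj U i = U * Matrix.diagonal x * Uᴴ := by
  have : Matrix.diagonal x = ∑ i, x i • Matrix.single i i (1 : ℂ) := by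
    ext a b
    rw [Matrix.sum_apply]
    simp only [Matrix.smul_apply, Matrix.single_apply, Matrix.diagonal_apply, smul_eq_mul]
    by_cases hab : a = b
    · subst hab
      rw [if_pos rfl, Finset.sum_eq_single a]
      · simp
      · intro i _ hi; simp [hi]
      · intro h; exact absurd (Finset.mem_univ a) h
    · rw [if_neg hab]
      symm
      refine Finset.sum_eq_zero (fun i _ => ?_)
      by_cases h1 : i = a
      · subst h1; simp [hab]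
      · simp [h1]
  rw [this, Finset.mul_sum, Finset.sum_mul]
  refine Finset.sum_congr rfl (fun i _ => ?_)
  unfold Pj
  rw [Matrix.mul_smul, Matrix.smul_mul]

theorem sum_Pj (hU' : U * Uᴴ = 1) : ∑ i, Pj U i = 1 := by
  have := sum_smul_Pj U (fun _ => 1)
  simp only [one_smul] at this
  rw [this]
  have e : Matrix.diagonal (fun _ : ι => (1 : ℂ)) = 1 := Matrix.diagonal_one
  rw [e, mul_one, hU']

theorem trace_mul_Pj (U D : Matrix ι ι ℂ) (i : ι) : (D * Pj U i).trace = (Uᴴ * D * U) i i := by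
  unfold Pj
  calc (D * (U * Matrix.single i i (1 : ℂ) * Uᴴ)).trace
      = ((D * U * Matrix.single i i (1 : ℂ)) * Uᴴ).trace := by congr 1; noncomm_ring
    _ = (Uᴴ * (D * U * Matrix.single i i (1 : ℂ))).trace := Matrix.trace_mul_comm _ _
    _ = ((Uᴴ * D * U) * Matrix.single i i (1 : ℂ)).trace := by congr 1; noncomm_ring
    _ = _ := by
      rw [Matrix.trace_mul_comm, Matrix.trace_single_mul]; simp

end blocks

section formula

variable {R₁ D₁ : Matrix ι ι ℂ} {R₂ D₂ : Matrix κ κ ℂ}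

theorem Z0_inv (hR₂ : R₂.PosSemidef) (hD₂ : D₂.IsHermitian) {c e : ℝ} (he : 0 ≤ e)
    {U : Matrix ι ι ℂ} {x : ι → ℝ} (hU : Uᴴ * U = 1) (hU' : U * Uᴴ = 1) (hx : ∀ i, 0 < x i)
    (hX : Uᴴ * Xc R₁ D₁ c * U = Matrix.diagonal (fun i => (x i : ℂ))) (w : ℝ) :
    (Zm (Nt R₁ D₁ R₂ D₂ c e 0) (Jc R₁ D₁ R₂ D₂ c) w)⁻¹ =
      ∑ i, Pj U i ⊗ₖ (Zm (1 + ((e * x i : ℝ) : ℂ) • R₂) (Wc R₂ D₂ c) (w * x i))⁻¹ := by
  have hXeq : Xc R₁ D₁ c = ∑ i, (x i : ℂ) • Pj U i := by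
    rw [sum_smul_Pj, ← hX]
    calc Xc R₁ D₁ c = (U * Uᴴ) * Xc R₁ D₁ c * (U * Uᴴ) := by rw [hU']; simp
      _ = _ := by noncomm_ring
  apply Matrix.inv_eq_right_inv
  -- decomposition of Z0
  have hZ : Zm (Nt R₁ D₁ R₂ D₂ c e 0) (Jc R₁ D₁ R₂ D₂ c) w =
      ∑ i, Pj U i ⊗ₖ (Zm (1 + ((e * x i : ℝ) : ℂ) • R₂) (Wc R₂ D₂ c) (w * x i)) := by
    have e1 : ∀ i, Pj U i ⊗ₖ (Zm (1 + ((e * x i : ℝ) : ℂ) • R₂) (Wc R₂ D₂ c) (w * x i)) =
        Pj U i ⊗ₖ (1 : Matrix κ κ ℂ) + (e : ℂ) • (((x i : ℂ) • Pj U i) ⊗ₖ R₂) +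
          ((w : ℂ) * Complex.I) • (((x i : ℂ) • Pj U i) ⊗ₖ Wc R₂ D₂ c) := by
      intro i
      unfold Zm
      rw [Matrix.kronecker_add, Matrix.kronecker_add, Matrix.kronecker_smul,
        Matrix.kronecker_smul, Matrix.smul_kronecker, Matrix.smul_kronecker, smul_smul, smul_smul]
      congr 2
      · push_cast; ring_nf
      · push_cast; ring
    simp only [e1, Finset.sum_add_distrib]
    rw [← Finset.smul_sum, ← Finset.smul_sum]
    have s1 : ∑ i, Pj U i ⊗ₖ (1 : Matrix κ κ ℂ) = 1 := by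
      have : ∑ i, Pj U i ⊗ₖ (1 : Matrix κ κ ℂ) = (∑ i, Pj U i) ⊗ₖ (1 : Matrix κ κ ℂ) := by
        ext ⟨a, b⟩ ⟨a', b'⟩
        simp only [Matrix.sum_apply, Matrix.kronecker_apply, Finset.sum_mul]
      rw [this, sum_Pj hU', Matrix.one_kronecker_one]
    have s2 : ∀ A : Matrix κ κ ℂ, ∑ i, ((x i : ℂ) • Pj U i) ⊗ₖ A = Xc R₁ D₁ c ⊗ₖ A := by
      intro A
      rw [hXeq]
      ext ⟨a, b⟩ ⟨a', b'⟩
      simp only [Matrix.sum_apply, Matrix.kronecker_apply, Finset.sum_mul]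
    rw [s1, s2, s2]
    unfold Zm Nt Mt Jc
    simp
  rw [hZ, Finset.sum_mul]
  have e2 : ∀ i, Pj U i ⊗ₖ (Zm (1 + ((e * x i : ℝ) : ℂ) • R₂) (Wc R₂ D₂ c) (w * x i)) *
      (∑ j, Pj U j ⊗ₖ (Zm (1 + ((e * x j : ℝ) : ℂ) • R₂) (Wc R₂ D₂ c) (w * x j))⁻¹) =
      Pj U i ⊗ₖ (1 : Matrix κ κ ℂ) := by
    intro i
    rw [Finset.mul_sum]
    rw [Finset.sum_eq_single i]
    · rw [← Matrix.mul_kronecker_mul, Pj_mul hU, if_pos rfl]
      obtain ⟨V, W, l, h⟩ := exists_frame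
        (posDef_one_add hR₂ (mul_nonneg he (hx i).le)) (WcH hR₂.1 hD₂ c)
      rw [Matrix.mul_nonsing_inv _ ((Matrix.isUnit_iff_isUnit_det _).1 (h.isUnitZ _))]
    · intro j _ hj
      rw [← Matrix.mul_kronecker_mul, Pj_mul hU, if_neg (Ne.symm hj), Matrix.zero_kronecker]
    · intro h; exact absurd (Finset.mem_univ i) h
  rw [Finset.sum_congr rfl (fun i _ => e2 i)]
  have : ∑ i, Pj U i ⊗ₖ (1 : Matrix κ κ ℂ) = (∑ i, Pj U i) ⊗ₖ (1 : Matrix κ κ ℂ) := by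
    ext ⟨a, b⟩ ⟨a', b'⟩
    simp only [Matrix.sum_apply, Matrix.kronecker_apply, Finset.sum_mul]
  rw [this, sum_Pj hU', Matrix.one_kronecker_one]

theorem vv_eq (hR₂ : R₂.PosSemidef) (hD₂ : D₂.IsHermitian) (hD₁ : D₁.IsHermitian) {c e : ℝ}
    (he : 0 ≤ e) {U : Matrix ι ι ℂ} {x : ι → ℝ} (hU : Uᴴ * U = 1) (hU' : U * Uᴴ = 1)
    (hx : ∀ i, 0 < x i)
    (hX : Uᴴ * Xc R₁ D₁ c * U = Matrix.diagonal (fun i => (x i : ℂ))) (w : ℝ) :
    vv R₁ D₁ R₂ D₂ c e w =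
      ∑ i, ((Uᴴ * D₁ * U) i i).re * (x i * sf R₂ D₂ c (e * x i) (w * x i)) := by
  unfold vv tz
  rw [Zt_eq_Zm, Z0_inv hR₂ hD₂ he hU hU' hx hX w, Finset.mul_sum, Matrix.trace_sum, Complex.im_sum,
    Finset.mul_sum]
  refine Finset.sum_congr rfl (fun i _ => ?_)
  rw [← Matrix.mul_kronecker_mul, Matrix.trace_kronecker, trace_mul_Pj]
  have him : ((Uᴴ * D₁ * U) i i).im = 0 := Frame.dgn_im hD₁ U i
  rw [Complex.mul_im, him]
  unfold sf
  have := (hx i).ne'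
  by_cases hw : w = 0
  · subst hw; simp
  · field_simp
    ring

/-- (7.1), block formula -/
theorem qc_eq (hR₂ : R₂.PosSemidef) (hD₂ : D₂.IsHermitian) (hD₁ : D₁.IsHermitian) {c e : ℝ}
    (he : 0 ≤ e) {U : Matrix ι ι ℂ} {x : ι → ℝ} (hU : Uᴴ * U = 1) (hU' : U * Uᴴ = 1)
    (hx : ∀ i, 0 < x i)
    (hX : Uᴴ * Xc R₁ D₁ c * U = Matrix.diagonal (fun i => (x i : ℂ))) :
    qc R₁ D₁ R₂ D₂ c e = ∑ i, ((Uᴴ * D₁ * U) i i).re * sy R₂ D₂ (e * x i) c := by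
  unfold qc
  have h1 : ∀ i, IntegrableOn (fun w => sf R₂ D₂ c (e * x i) (w * x i)) (Ioi 0) := by
    intro i
    have h2 := sf_integrable (D := D₂) hR₂ hD₂ c (mul_nonneg he (hx i).le)
    have h3 : IntegrableOn (sf R₂ D₂ c (e * x i)) (Ioi (0 * x i)) := by rwa [zero_mul]
    exact (integrableOn_Ioi_comp_mul_right_iff (sf R₂ D₂ c (e * x i)) 0 (hx i)).2 h3
  have h4 : ∀ i, ∫ w in Ioi (0:ℝ), x i * sf R₂ D₂ c (e * x i) (w * x i) =
      ∫ w in Ioi (0:ℝ), sf R₂ D₂ c (e * x i) w := by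
    intro i
    rw [integral_const_mul, integral_comp_mul_right_Ioi (sf R₂ D₂ c (e * x i)) 0 (hx i),
      zero_mul, smul_eq_mul, ← mul_assoc, mul_inv_cancel₀ (hx i).ne', one_mul]
  have h5 : ∫ w in Ioi (0:ℝ), vv R₁ D₁ R₂ D₂ c e w =
      ∑ i, ((Uᴴ * D₁ * U) i i).re * ∫ w in Ioi (0:ℝ), sf R₂ D₂ c (e * x i) w := by
    simp only [vv_eq hR₂ hD₂ hD₁ he hU hU' hx hX]
    rw [integral_finsetSum _ fun i _ => ((h1 i).const_mul _).const_mul _]
    refine Finset.sum_congr rfl (fun i _ => ?_)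
    rw [integral_const_mul, h4]
  rw [h5, Finset.mul_sum]
  refine Finset.sum_congr rfl (fun i _ => ?_)
  rw [sy_eq_sf]
  ring

end formula

end Pool.Agent.A1W
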